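import Pool.Agent.Helper14K9.PJ.Base
import Pool.Agent.R794.FP.Code
import Pool.Agent.Y409.UF.Full
import Pool.Agent.Y606.UF.Fin
import Pool.Agent.Results.MP_db9079_lc.UniformFiniteness

/-! # Project PJ, leaf NUM (helper90): the sort of the numbers -/

set_option autoImplicit false

namespace Pool.Agent.Helper90K9.PJ

open Function
open Pool.Agent.Y924.EL Pool.Agent.Y924.UF
open Pool.Agent.Helper14K9.SO Pool.Agent.Helper14K9.PJ

variable {p : ℕ} [Fact p.Prime] {P : Set (LaurentSeries (ZMod p))}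

/-- finiteness of the members of a definable family is definable -/
theorem rc_fin {D : LaurentSeries (ZMod p) → Set (LaurentSeries (ZMod p))}
    (h : Rc P (fun v => v 0 ∈ D (v 1))) : Rc P (fun v => (D (v 0)).Finite) := by
  have hm : ∀ i j, Rc P (fun v => v i ∈ D (v j)) := fun i j =>
    Rc.ren2 (ρ := id) (σ := id) (R := fun x y => x ∈ D y) h i j
  have h0 : Rc P (fun v => ∃ b, ∃ c, b ≠ 0 ∧ c ≠ 0 ∧
      (∀ x, x ∈ D (v 0) → ∃ z, z ∈ OO p ∧ x - 0 = c * z) ∧
      ∀ x, ∀ y, x ∈ D (v 0) → y ∈ D (v 0) → (∃ z, z ∈ OO p ∧ x - y = b * z) → x = y) := by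
    refine Rc.ex' 1 (Rc.ex' 2 (((Rc.eqC 1 0).not).and (((Rc.eqC 2 0).not).and
      ((Rc.all' 3 ((hm 3 0).imp (rc_ball (Tk.var 3) (Tk.const 0) (Tk.var 2))) ?_).and
      (Rc.all' 3 (Rc.all' 4 ((hm 3 0).imp ((hm 4 0).imp
        ((rc_ball (Tk.var 3) (Tk.var 4) (Tk.var 1)).imp (Rc.eqV 3 4)))) ?_) ?_)))) ?_) ?_
    · intro v a c; simp
    · intro v a c; simp
    · intro v a c; simp
    · intro v a c; simp
    · intro v a c; simp
  refine h0.congr fun v => ?_
  rw [Pool.Agent.Y606.UF.t_FIN p (D (v 0))]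
  refine exists_congr fun b => exists_congr fun c => and_congr Iff.rfl (and_congr Iff.rfl
    (and_congr (forall_congr' fun x => imp_congr Iff.rfl (exists_congr fun z =>
      and_congr Iff.rfl ?_)) (forall_congr' fun x => forall_congr' fun y => imp_congr Iff.rfl
      (imp_congr Iff.rfl (imp_congr ?_ Iff.rfl)))))
  · rw [sub_zero]
    exact eq_comm
  · constructor
    · rintro ⟨z, h1, h2⟩
      exact ⟨z, b * z, h1, rfl, by rw [← h2]; ring⟩
    · rintro ⟨z, y', h1, h2, h3⟩
      exact ⟨z, h1, by rw [h2, ← h3]; ring⟩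

theorem tk_cdl (l : List ℕ) :
    Tk P (fun v => Pool.Agent.R794.FP.cdl p (tq p) (l.map v)) := by
  induction l with
  | nil => exact Tk.const 0
  | cons a l ih => exact ((Tk.var a).pow p).add ((Tk.const (tq p)).mul (ih.pow p))

/-- the code of the variables `1, ..., V` -/
noncomputable def cod (p V : ℕ) [Fact p.Prime] (w : ℕ → LaurentSeries (ZMod p)) :
    LaurentSeries (ZMod p) :=
  Pool.Agent.R794.FP.cdl p (tq p) (((List.range V).map (· + 1)).map w)

theorem cod_congr {V : ℕ} {w w' : ℕ → LaurentSeries (ZMod p)}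
    (h : ∀ j, j < V + 1 → 1 ≤ j → w j = w' j) : cod p V w = cod p V w' := by
  unfold cod
  congr 1
  rw [List.map_map, List.map_map]
  refine List.map_congr_left fun i hi => ?_
  rw [List.mem_range] at hi
  exact h (i + 1) (by omega) (by omega)

theorem cod_inj {V : ℕ} {w w' : ℕ → LaurentSeries (ZMod p)} (h : cod p V w = cod p V w') :
    ∀ j, j < V + 1 → 1 ≤ j → w j = w' j := by
  intro j h1 h2
  have h3 := Pool.Agent.R794.FP.cdl_inj _ _ (by simp) h
  rw [List.map_map, List.map_map] at h3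
  have h4 := List.map_inj_left.1 h3 (j - 1) (by rw [List.mem_range]; omega)
  simp only [comp_apply] at h4
  rwa [show j - 1 + 1 = j by omega] at h4

/-- the sets defined by `φ`, indexed by the codes of the parameters -/
def DD (P : Set (LaurentSeries (ZMod p))) (φ : Fm) (V : ℕ) (z : LaurentSeries (ZMod p)) :
    Set (LaurentSeries (ZMod p)) :=
  {x | ∃ w, cod p V w = z ∧ Sat P φ (update w 0 x)}

theorem DD_cod {φ : Fm} {V : ℕ} (hφ : Below (V + 1) φ) (w : ℕ → LaurentSeries (ZMod p)) :
    DD P φ V (cod p V w) = DefP P φ w := by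
  ext x
  constructor
  · rintro ⟨w', h1, h2⟩
    refine (sat_agree P φ hφ _ _ fun i hi => ?_).1 h2
    rcases eq_or_ne i 0 with rfl | h3
    · rw [update_self, update_self]
    · rw [update_of_ne h3, update_of_ne h3]
      exact cod_inj h1 i hi (by omega)
  · intro h
    exact ⟨w, rfl, h⟩

theorem rc_DD {φ : Fm} {V : ℕ} (hφ : Below (V + 1) φ) :
    Rc P (fun v => v 0 ∈ DD P φ V (v 1)) := by
  obtain ⟨M, hM⟩ : ∃ M, M = V + 2 := ⟨_, rfl⟩
  have hR : Rc P (fun w => cod p V w = w (M + 1) ∧ Sat P φ (update w 0 (w M))) :=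
    (Rc.eqK (tk_cdl _) (Tk.var (M + 1))).and
      ((Rc.of_rl (R := fun v => Sat P φ v) ⟨φ, fun _ => Iff.rfl⟩).sub (Tk.var M) 0)
  have h1 : Rc P (fun v => v M ∈ DD P φ V (v (M + 1))) := by
    refine (Rc.exB hR M).congr fun v => ?_
    constructor
    · rintro ⟨w, h1, h2, h3⟩
      rw [h1 M le_rfl] at h3
      rw [h1 (M + 1) (by omega)] at h2
      exact ⟨w, h2, h3⟩
    · rintro ⟨w, h2, h3⟩
      refine ⟨fun j => if j < M then w j else v j, fun j hj => if_neg (by omega), ?_, ?_⟩
      · have h4 : cod p V (fun j => if j < M then w j else v j) = cod p V w :=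
          cod_congr fun j hj _ => if_pos (by omega)
        rw [h4, h2]
        exact (if_neg (by omega)).symm
      · refine (sat_agree P φ hφ _ _ fun i hi => ?_).1 h3
        rcases eq_or_ne i 0 with rfl | h5
        · rw [update_self, update_self]
          exact (if_neg (by omega)).symm
        · rw [update_of_ne h5, update_of_ne h5]
          exact (if_pos (by omega)).symm
  refine ((h1.sub (Tk.var 0) M).sub (Tk.var 1) (M + 1)).congr fun v => ?_
  rw [update_self, update_of_ne (show M + 1 ≠ M by omega), update_self,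
    update_of_ne (show 0 ≠ M + 1 by omega)]

theorem num : S_CNT → S_NUM := by
  intro hcnt p _ P hU
  obtain ⟨φ0, h0⟩ := hU
  obtain ⟨φ, hφ⟩ := Pool.Agent.Y409.UF.t_FULL
    Pool.Agent.Results.MP_db9079_lc.UniformFiniteness.code_all Pool.Agent.Y686.UF.t_CLO p P φ0 h0
  obtain ⟨V, hV⟩ := Pool.Agent.Y686.UF.t_CLO.1 φ
  have hB : Below (V + 1) φ := hV _ (by omega)
  have hD : Rc P (fun v => v 0 ∈ DD P φ V (v 1)) := rc_DD hB
  have hF : Rc P (fun v => (DD P φ V (v 0)).Finite) := rc_fin hD
  let X : LaurentSeries (ZMod p) → Set (LaurentSeries (ZMod p)) :=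
    fun z => {x | x ∈ DD P φ V z ∧ (DD P φ V z).Finite}
  have hX : ∀ z, (X z).ncard = (DD P φ V z).ncard := by
    intro z
    by_cases h : (DD P φ V z).Finite
    · have : X z = DD P φ V z := by
        ext x
        exact ⟨fun hx => hx.1, fun hx => ⟨hx, h⟩⟩
      rw [this]
    · have : X z = ∅ := by
        ext x
        exact ⟨fun hx => h hx.2, fun hx => hx.elim⟩
      rw [this, Set.Infinite.ncard h, Set.ncard_empty]
  have hXf : ∀ z, (X z).Finite := by
    intro z
    by_cases h : (DD P φ V z).Finite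
    · exact h.subset fun x hx => hx.1
    · have : X z = ∅ := by
        ext x
        exact ⟨fun hx => h hx.2, fun hx => hx.elim⟩
      rw [this]
      exact Set.finite_empty
  have hfam : ∀ j, j ≠ 0 → Fam P (fun v => X (v j)) := by
    intro j hj
    refine ⟨(Rc.ren2 (ρ := id) (σ := id) (R := fun x y => x ∈ DD P φ V y) hD 0 j).and
      (Rc.app1 surjective_id (R := fun z => (DD P φ V z).Finite) hF (Tk.var j)), fun v a => ?_,
      fun v => hXf _⟩
    show X (update v 0 a j) = X (v j)
    rw [update_of_ne hj]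
  refine ⟨fun z => (DD P φ V z).ncard, ?_, ?_, ?_, ?_⟩
  · intro n
    obtain ⟨v, -, hv⟩ := hφ n
    exact ⟨cod p V v, by show (DD P φ V (cod p V v)).ncard = n; rw [DD_cod hB, hv]⟩
  · intro i j
    have h1 := (hcnt p P _ _ _ (hfam 1 (by norm_num)) (hfam 2 (by norm_num))
      (hfam 3 (by norm_num))).1
    have h2 : Rc P (fun v => (DD P φ V (v 0)).ncard = (DD P φ V (v 1)).ncard) := by
      refine ((h1.sub (Tk.var 0) 1).sub (Tk.var 1) 2).congr fun v => ?_
      simp only [hX]
      simp
    exact Rc.ren2 (ρ := id) (σ := id)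
      (R := fun x y => (DD P φ V x).ncard = (DD P φ V y).ncard) h2 i j
  · have h1 := (hcnt p P _ _ _ (hfam 1 (by norm_num)) (hfam 2 (by norm_num))
      (hfam 3 (by norm_num))).2
    refine (((h1.sub (Tk.var 0) 1).sub (Tk.var 1) 2).sub (Tk.var 2) 3).congr fun v => ?_
    simp only [hX]
    simp
  · intro Y hY
    obtain ⟨N, hN⟩ := hY.mem.fresh
    refine ⟨N + 1, fun j hj => ⟨?_, fun v a => ?_⟩⟩
    · refine (hcnt p P _ _ _ hY (hfam j (by omega)) hY).1.congr fun v => ?_
      rw [hX]
    · have h1 : Y (update v j a) = Y v := by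
        ext x
        have h2 := hN j (by omega) (update v 0 x) a
        rw [update_comm (show (0 : ℕ) ≠ j by omega), hY.ind, hY.ind,
          update_self, update_self] at h2
        exact h2
      show (Y (update v j a)).ncard = (Y v).ncard
      rw [h1]

end Pool.Agent.Helper90K9.PJ
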