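import Pool.Agent.Helper14K9.PJ.Base
import Pool.Agent.Helper14K9.SO.All

/-! # Project PJ, leaf ENV (helper90): the definable sequence -/

set_option autoImplicit false

namespace Pool.Agent.Helper90K9.PJ

open Function
open Pool.Agent.Y924.EL Pool.Agent.Y924.UF
open Pool.Agent.Helper14K9.SO Pool.Agent.Helper14K9.PJ

/-- comparison of distances to a point, definable -/
theorem rc_lt {p : ℕ} [Fact p.Prime] {P : Set (LaurentSeries (ZMod p))}
    {f g : (ℕ → LaurentSeries (ZMod p)) → LaurentSeries (ZMod p)} (hf : Tk P f) (hg : Tk P g) :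
    Rc P (fun v => Lt p (tq p) (f v) (g v)) := by
  refine (rc_ball hf (Tk.const 0) hg).not.congr fun v => not_congr (exists_congr fun z => ?_)
  rw [sub_zero]
  constructor
  · rintro ⟨h1, h2⟩
    exact ⟨((val_all p).1 z).1 h1, h2.symm⟩
  · rintro ⟨h1, h2⟩
    exact ⟨((val_all p).1 z).2 h1, h2.symm⟩

theorem env : S_ENV := by
  intro p _ P φ w hinf
  obtain ⟨s, hs⟩ := exi_all p (DefP P φ w) hinf
  obtain ⟨e, he1, he2, he3, -⟩ := full_all p _ _ _ hs
  change ∀ n, InQ p (DefP P φ w) (tq p) s (e n) at he1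
  change ∀ g, InQ p (DefP P φ w) (tq p) s g → ∃ n, e n = g at he2
  change ∀ n, {x | InX p (DefP P φ w) (tq p) s (e n) x}.Finite ∧
    {x | InX p (DefP P φ w) (tq p) s (e n) x}.ncard = n at he3
  have hB : ∀ z, OT (p + 1) (tq p) z ↔ z ∈ OO p := fun z => ((val_all p).1 z).symm
  have hne : ∀ g, InQ p (DefP P φ w) (tq p) s g → s - g ≠ 0 :=
    fun g hg h => hg.1 (sub_eq_zero.1 h).symm
  have hlt : ∀ g g', InQ p (DefP P φ w) (tq p) s g → InQ p (DefP P φ w) (tq p) s g' →
      (Lt p (tq p) (s - g) (s - g') ↔ (s - g).order < (s - g').order) :=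
    fun g g' h h' => Pool.Agent.Helper90K9.SO.FullL.lt_iff hB (hne g h) (hne g' h')
  have hmono : StrictMono fun n => (s - e n).order := by
    intro n m hnm
    by_contra hcon
    rw [not_lt] at hcon
    have hsub : {x | InX p (DefP P φ w) (tq p) s (e m) x} ⊆
        {x | InX p (DefP P φ w) (tq p) s (e n) x} := by
      rintro x ⟨h1, h2⟩
      rw [hlt _ _ h1 (he1 m)] at h2
      refine ⟨h1, ?_⟩
      rw [hlt _ _ h1 (he1 n)]
      exact lt_of_lt_of_le h2 hcon
    have h3 := Set.ncard_le_ncard hsub (he3 n).1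
    rw [(he3 m).2, (he3 n).2] at h3
    omega
  -- the formula for the set of the approximations
  obtain ⟨V0, hV0⟩ := Pool.Agent.Y686.UF.t_CLO.1 φ
  obtain ⟨V, hV⟩ : ∃ V, V = V0 + 1 := ⟨_, rfl⟩
  have hφ : Below V φ := hV0 V (by omega)
  obtain ⟨X, Q, M, G, hM, -⟩ := for_ p P φ V (by omega) hφ
  have hQ : Rc P (fun v => InQ p (DefP P φ v) (v V) (v (V + 1)) (v (V + 2))) :=
    Rc.of_rl ⟨Q, fun v => (hM v).2.1⟩
  let w' : ℕ → LaurentSeries (ZMod p) := update (update w V (tq p)) (V + 1) s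
  have hQ0 : Rc P (fun v => InQ p (DefP P φ w) (tq p) s (v 0)) := by
    refine ((hQ.consts w' (V + 2)).sub (Tk.var 0) (V + 2)).congr fun v => ?_
    have e1 : DefP P φ (fun j => if j < V + 2 then w' j else update v (V + 2) (v 0) j) =
        DefP P φ w := by
      ext x
      refine sat_agree P φ hφ _ _ fun i hi => ?_
      rcases eq_or_ne i 0 with rfl | h0
      · rw [update_self, update_self]
      · rw [update_of_ne h0, update_of_ne h0, if_pos (by omega)]
        show update (update w V (tq p)) (V + 1) s i = w i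
        rw [update_of_ne (by omega), update_of_ne (by omega)]
    have e2 : (if V < V + 2 then w' V else update v (V + 2) (v 0) V) = tq p := by
      rw [if_pos (by omega)]
      show update (update w V (tq p)) (V + 1) s V = tq p
      rw [update_of_ne (by omega), update_self]
    have e3 : (if V + 1 < V + 2 then w' (V + 1) else update v (V + 2) (v 0) (V + 1)) = s := by
      rw [if_pos (by omega)]
      show update (update w V (tq p)) (V + 1) s (V + 1) = s
      rw [update_self]
    have e4 : (if V + 2 < V + 2 then w' (V + 2) else update v (V + 2) (v 0) (V + 2)) = v 0 := by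
      rw [if_neg (by omega), update_self]
    rw [e1]
    beta_reduce
    rw [e2, e3, e4]
  have hQj : ∀ j, Rc P (fun v => InQ p (DefP P φ w) (tq p) s (v j)) := fun j =>
    Rc.app1 (ρ := id) surjective_id (R := fun z => InQ p (DefP P φ w) (tq p) s z) hQ0 (Tk.var j)
  refine ⟨s, e, fun n => (he1 n).1, hmono, ?_, ?_⟩
  · refine hQ0.congr fun v => ⟨fun h => ?_, ?_⟩
    · obtain ⟨n, hn⟩ := he2 _ h
      exact ⟨n, hn.symm⟩
    · rintro ⟨n, hn⟩
      rw [hn]
      exact he1 n
  · refine ((hQj 0).and ((hQj 1).and (rc_lt ((Tk.const s).sub (Tk.var 0))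
      ((Tk.const s).sub (Tk.var 1))))).congr fun v => ?_
    constructor
    · rintro ⟨h1, h2, h3⟩
      rw [hlt _ _ h1 h2] at h3
      obtain ⟨n, hn⟩ := he2 _ h1
      obtain ⟨m, hm⟩ := he2 _ h2
      rw [← hn, ← hm] at h3
      exact ⟨n, m, hn.symm, hm.symm, hmono.lt_iff_lt.1 h3⟩
    · rintro ⟨n, m, hn, hm, hnm⟩
      rw [hn, hm]
      exact ⟨he1 n, he1 m, (hlt _ _ (he1 n) (he1 m)).2 (hmono hnm)⟩

end Pool.Agent.Helper90K9.PJ
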